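import Pool.Agent.H39.CN.Init
import Pool.Agent.H39.CN.Cert.C1

namespace H39.CN

universe u

theorem q26_2 : PrmOK p26_2 26 2 :=
  ⟨⟨by decide +kernel, by decide +kernel⟩, rfl, rfl, by norm_num⟩

theorem i26_2 : InitOK p26_2 s26_2 26 := by
  constructor <;> decide +kernel

theorem no26_2 (R : RG.{u} 26 2) : False :=
  no_RG q26_2 i26_2 (exec_bad q26_2 e26_2) R

theorem q26_3 : PrmOK p26_3 26 3 :=
  ⟨⟨by decide +kernel, by decide +kernel⟩, rfl, rfl, by norm_num⟩

theorem i26_3 : InitOK p26_3 s26_3 26 := by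
  constructor <;> decide +kernel

theorem no26_3 (R : RG.{u} 26 3) : False :=
  no_RG q26_3 i26_3 (exec_bad q26_3 e26_3) R

theorem q25_2 : PrmOK p25_2 25 2 :=
  ⟨⟨by decide +kernel, by decide +kernel⟩, rfl, rfl, by norm_num⟩

theorem i25_2 : InitOK p25_2 s25_2 25 := by
  constructor <;> decide +kernel

theorem no25_2 (R : RG.{u} 25 2) : False :=
  no_RG q25_2 i25_2 (exec_bad q25_2 e25_2) R

theorem q25_3 : PrmOK p25_3 25 3 :=
  ⟨⟨by decide +kernel, by decide +kernel⟩, rfl, rfl, by norm_num⟩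

theorem i25_3 : InitOK p25_3 s25_3 25 := by
  constructor <;> decide +kernel

theorem no25_3 (R : RG.{u} 25 3) : False :=
  no_RG q25_3 i25_3 (exec_bad q25_3 e25_3) R

theorem q24_2 : PrmOK p24_2 24 2 :=
  ⟨⟨by decide +kernel, by decide +kernel⟩, rfl, rfl, by norm_num⟩

theorem i24_2 : InitOK p24_2 s24_2 24 := by
  constructor <;> decide +kernel

theorem no24_2 (R : RG.{u} 24 2) : False :=
  no_RG q24_2 i24_2 (exec_bad q24_2 e24_2) R

theorem q24_3 : PrmOK p24_3 24 3 :=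
  ⟨⟨by decide +kernel, by decide +kernel⟩, rfl, rfl, by norm_num⟩

theorem i24_3 : InitOK p24_3 s24_3 24 := by
  constructor <;> decide +kernel

theorem no24_3 (R : RG.{u} 24 3) : False :=
  no_RG q24_3 i24_3 (exec_bad q24_3 e24_3) R

theorem q23_2 : PrmOK p23_2 23 2 :=
  ⟨⟨by decide +kernel, by decide +kernel⟩, rfl, rfl, by norm_num⟩

theorem i23_2 : InitOK p23_2 s23_2 23 := by
  constructor <;> decide +kernel

theorem no23_2 (R : RG.{u} 23 2) : False :=
  no_RG q23_2 i23_2 (exec_bad q23_2 e23_2) R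

theorem q23_3 : PrmOK p23_3 23 3 :=
  ⟨⟨by decide +kernel, by decide +kernel⟩, rfl, rfl, by norm_num⟩

theorem i23_3 : InitOK p23_3 s23_3 23 := by
  constructor <;> decide +kernel

theorem no23_3 (R : RG.{u} 23 3) : False :=
  no_RG q23_3 i23_3 (exec_bad q23_3 e23_3) R

theorem q22_2 : PrmOK p22_2 22 2 :=
  ⟨⟨by decide +kernel, by decide +kernel⟩, rfl, rfl, by norm_num⟩

theorem i22_2 : InitOK p22_2 s22_2 22 := by
  constructor <;> decide +kernel

theorem no22_2 (R : RG.{u} 22 2) : False :=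
  no_RG q22_2 i22_2 (exec_bad q22_2 e22_2) R

theorem q22_3 : PrmOK p22_3 22 3 :=
  ⟨⟨by decide +kernel, by decide +kernel⟩, rfl, rfl, by norm_num⟩

theorem i22_3 : InitOK p22_3 s22_3 22 := by
  constructor <;> decide +kernel

theorem no22_3 (R : RG.{u} 22 3) : False :=
  no_RG q22_3 i22_3 (exec_bad q22_3 e22_3) R

theorem q21_2 : PrmOK p21_2 21 2 :=
  ⟨⟨by decide +kernel, by decide +kernel⟩, rfl, rfl, by norm_num⟩

theorem i21_2 : InitOK p21_2 s21_2 21 := by
  constructor <;> decide +kernel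

theorem no21_2 (R : RG.{u} 21 2) : False :=
  no_RG q21_2 i21_2 (exec_bad q21_2 e21_2) R

theorem q21_3 : PrmOK p21_3 21 3 :=
  ⟨⟨by decide +kernel, by decide +kernel⟩, rfl, rfl, by norm_num⟩

theorem i21_3 : InitOK p21_3 s21_3 21 := by
  constructor <;> decide +kernel

theorem no21_3 (R : RG.{u} 21 3) : False :=
  no_RG q21_3 i21_3 (exec_bad q21_3 e21_3) R

theorem q20_2 : PrmOK p20_2 20 2 :=
  ⟨⟨by decide +kernel, by decide +kernel⟩, rfl, rfl, by norm_num⟩

theorem i20_2 : InitOK p20_2 s20_2 20 := by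
  constructor <;> decide +kernel

theorem no20_2 (R : RG.{u} 20 2) : False :=
  no_RG q20_2 i20_2 (exec_bad q20_2 e20_2) R

theorem q20_3 : PrmOK p20_3 20 3 :=
  ⟨⟨by decide +kernel, by decide +kernel⟩, rfl, rfl, by norm_num⟩

theorem i20_3 : InitOK p20_3 s20_3 20 := by
  constructor <;> decide +kernel

theorem no20_3 (R : RG.{u} 20 3) : False :=
  no_RG q20_3 i20_3 (exec_bad q20_3 e20_3) R

theorem q19_2 : PrmOK p19_2 19 2 :=
  ⟨⟨by decide +kernel, by decide +kernel⟩, rfl, rfl, by norm_num⟩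

theorem i19_2 : InitOK p19_2 s19_2 19 := by
  constructor <;> decide +kernel

theorem no19_2 (R : RG.{u} 19 2) : False :=
  no_RG q19_2 i19_2 (exec_bad q19_2 e19_2) R

theorem q19_3 : PrmOK p19_3 19 3 :=
  ⟨⟨by decide +kernel, by decide +kernel⟩, rfl, rfl, by norm_num⟩

theorem i19_3 : InitOK p19_3 s19_3 19 := by
  constructor <;> decide +kernel

theorem no19_3 (R : RG.{u} 19 3) : False :=
  no_RG q19_3 i19_3 (exec_bad q19_3 e19_3) R

theorem q18_2 : PrmOK p18_2 18 2 :=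
  ⟨⟨by decide +kernel, by decide +kernel⟩, rfl, rfl, by norm_num⟩

theorem i18_2 : InitOK p18_2 s18_2 18 := by
  constructor <;> decide +kernel

theorem no18_2 (R : RG.{u} 18 2) : False :=
  no_RG q18_2 i18_2 (exec_bad q18_2 e18_2) R

theorem q18_3 : PrmOK p18_3 18 3 :=
  ⟨⟨by decide +kernel, by decide +kernel⟩, rfl, rfl, by norm_num⟩

theorem i18_3 : InitOK p18_3 s18_3 18 := by
  constructor <;> decide +kernel

theorem no18_3 (R : RG.{u} 18 3) : False :=
  no_RG q18_3 i18_3 (exec_bad q18_3 e18_3) R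

theorem q17_2 : PrmOK p17_2 17 2 :=
  ⟨⟨by decide +kernel, by decide +kernel⟩, rfl, rfl, by norm_num⟩

theorem i17_2 : InitOK p17_2 s17_2 17 := by
  constructor <;> decide +kernel

theorem no17_2 (R : RG.{u} 17 2) : False :=
  no_RG q17_2 i17_2 (exec_bad q17_2 e17_2) R

theorem q17_3 : PrmOK p17_3 17 3 :=
  ⟨⟨by decide +kernel, by decide +kernel⟩, rfl, rfl, by norm_num⟩

theorem i17_3 : InitOK p17_3 s17_3 17 := by
  constructor <;> decide +kernel

theorem no17_3 (R : RG.{u} 17 3) : False :=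
  no_RG q17_3 i17_3 (exec_bad q17_3 e17_3) R

theorem q16_2 : PrmOK p16_2 16 2 :=
  ⟨⟨by decide +kernel, by decide +kernel⟩, rfl, rfl, by norm_num⟩

theorem i16_2 : InitOK p16_2 s16_2 16 := by
  constructor <;> decide +kernel

theorem no16_2 (R : RG.{u} 16 2) : False :=
  no_RG q16_2 i16_2 (exec_bad q16_2 e16_2) R

theorem q16_3 : PrmOK p16_3 16 3 :=
  ⟨⟨by decide +kernel, by decide +kernel⟩, rfl, rfl, by norm_num⟩

theorem i16_3 : InitOK p16_3 s16_3 16 := by
  constructor <;> decide +kernel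

theorem no16_3 (R : RG.{u} 16 3) : False :=
  no_RG q16_3 i16_3 (exec_bad q16_3 e16_3) R

end H39.CN
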