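import Pool.Agent.H39.CN.Init
import Pool.Agent.H39.CN.Cert.R4_2

namespace H39.CN

universe u

theorem q4_2 : PrmOK p4_2 4 2 :=
  ⟨⟨by decide +kernel, by decide +kernel⟩, rfl, rfl, by norm_num⟩

theorem i4_2 : InitOK p4_2 s4_2 4 := by
  constructor <;> decide +kernel

theorem ab4_2 : AllBad.{u} p4_2 4 2 [t4_2_0, t4_2_1, t4_2_2, t4_2_3, t4_2_4, t4_2_5, t4_2_6, t4_2_7, t4_2_8, t4_2_9, t4_2_10, t4_2_11, t4_2_12, t4_2_13, t4_2_14, t4_2_15, t4_2_16, t4_2_17, t4_2_18, t4_2_19, t4_2_20, t4_2_21, t4_2_22, t4_2_23, t4_2_24] := by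
  refine allBad_cons.2 ⟨exec_bad q4_2 k4_2_0, ?_⟩
  refine allBad_cons.2 ⟨exec_bad q4_2 k4_2_1, ?_⟩
  refine allBad_cons.2 ⟨exec_bad q4_2 k4_2_2, ?_⟩
  refine allBad_cons.2 ⟨exec_bad q4_2 k4_2_3, ?_⟩
  refine allBad_cons.2 ⟨exec_bad q4_2 k4_2_4, ?_⟩
  refine allBad_cons.2 ⟨exec_bad q4_2 k4_2_5, ?_⟩
  refine allBad_cons.2 ⟨exec_bad q4_2 k4_2_6, ?_⟩
  refine allBad_cons.2 ⟨exec_bad q4_2 k4_2_7, ?_⟩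
  refine allBad_cons.2 ⟨exec_bad q4_2 k4_2_8, ?_⟩
  refine allBad_cons.2 ⟨exec_bad q4_2 k4_2_9, ?_⟩
  refine allBad_cons.2 ⟨exec_bad q4_2 k4_2_10, ?_⟩
  refine allBad_cons.2 ⟨exec_bad q4_2 k4_2_11, ?_⟩
  refine allBad_cons.2 ⟨exec_bad q4_2 k4_2_12, ?_⟩
  refine allBad_cons.2 ⟨exec_bad q4_2 k4_2_13, ?_⟩
  refine allBad_cons.2 ⟨exec_bad q4_2 k4_2_14, ?_⟩
  refine allBad_cons.2 ⟨exec_bad q4_2 k4_2_15, ?_⟩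
  refine allBad_cons.2 ⟨exec_bad q4_2 k4_2_16, ?_⟩
  refine allBad_cons.2 ⟨exec_bad q4_2 k4_2_17, ?_⟩
  refine allBad_cons.2 ⟨exec_bad q4_2 k4_2_18, ?_⟩
  refine allBad_cons.2 ⟨exec_bad q4_2 k4_2_19, ?_⟩
  refine allBad_cons.2 ⟨exec_bad q4_2 k4_2_20, ?_⟩
  refine allBad_cons.2 ⟨exec_bad q4_2 k4_2_21, ?_⟩
  refine allBad_cons.2 ⟨exec_bad q4_2 k4_2_22, ?_⟩
  refine allBad_cons.2 ⟨exec_bad q4_2 k4_2_23, ?_⟩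
  refine allBad_cons.2 ⟨exec_bad q4_2 k4_2_24, ?_⟩
  exact allBad_nil

theorem no4_2 (R : RG.{u} 4 2) : False :=
  no_RG q4_2 i4_2 (execR_bad q4_2 r4_2 ab4_2) R

end H39.CN
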