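import Pool.Agent.H39.CN.Init
import Pool.Agent.H39.CN.Cert.C2

namespace H39.CN

universe u

theorem q15_2 : PrmOK p15_2 15 2 :=
  ⟨⟨by decide +kernel, by decide +kernel⟩, rfl, rfl, by norm_num⟩

theorem i15_2 : InitOK p15_2 s15_2 15 := by
  constructor <;> decide +kernel

theorem no15_2 (R : RG.{u} 15 2) : False :=
  no_RG q15_2 i15_2 (exec_bad q15_2 e15_2) R

theorem q15_3 : PrmOK p15_3 15 3 :=
  ⟨⟨by decide +kernel, by decide +kernel⟩, rfl, rfl, by norm_num⟩

theorem i15_3 : InitOK p15_3 s15_3 15 := by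
  constructor <;> decide +kernel

theorem no15_3 (R : RG.{u} 15 3) : False :=
  no_RG q15_3 i15_3 (exec_bad q15_3 e15_3) R

theorem q14_2 : PrmOK p14_2 14 2 :=
  ⟨⟨by decide +kernel, by decide +kernel⟩, rfl, rfl, by norm_num⟩

theorem i14_2 : InitOK p14_2 s14_2 14 := by
  constructor <;> decide +kernel

theorem no14_2 (R : RG.{u} 14 2) : False :=
  no_RG q14_2 i14_2 (exec_bad q14_2 e14_2) R

theorem q14_3 : PrmOK p14_3 14 3 :=
  ⟨⟨by decide +kernel, by decide +kernel⟩, rfl, rfl, by norm_num⟩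

theorem i14_3 : InitOK p14_3 s14_3 14 := by
  constructor <;> decide +kernel

theorem no14_3 (R : RG.{u} 14 3) : False :=
  no_RG q14_3 i14_3 (exec_bad q14_3 e14_3) R

theorem q13_2 : PrmOK p13_2 13 2 :=
  ⟨⟨by decide +kernel, by decide +kernel⟩, rfl, rfl, by norm_num⟩

theorem i13_2 : InitOK p13_2 s13_2 13 := by
  constructor <;> decide +kernel

theorem no13_2 (R : RG.{u} 13 2) : False :=
  no_RG q13_2 i13_2 (exec_bad q13_2 e13_2) R

theorem q13_3 : PrmOK p13_3 13 3 :=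
  ⟨⟨by decide +kernel, by decide +kernel⟩, rfl, rfl, by norm_num⟩

theorem i13_3 : InitOK p13_3 s13_3 13 := by
  constructor <;> decide +kernel

theorem no13_3 (R : RG.{u} 13 3) : False :=
  no_RG q13_3 i13_3 (exec_bad q13_3 e13_3) R

theorem q12_2 : PrmOK p12_2 12 2 :=
  ⟨⟨by decide +kernel, by decide +kernel⟩, rfl, rfl, by norm_num⟩

theorem i12_2 : InitOK p12_2 s12_2 12 := by
  constructor <;> decide +kernel

theorem no12_2 (R : RG.{u} 12 2) : False :=
  no_RG q12_2 i12_2 (exec_bad q12_2 e12_2) R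

theorem q12_3 : PrmOK p12_3 12 3 :=
  ⟨⟨by decide +kernel, by decide +kernel⟩, rfl, rfl, by norm_num⟩

theorem i12_3 : InitOK p12_3 s12_3 12 := by
  constructor <;> decide +kernel

theorem no12_3 (R : RG.{u} 12 3) : False :=
  no_RG q12_3 i12_3 (exec_bad q12_3 e12_3) R

theorem q11_2 : PrmOK p11_2 11 2 :=
  ⟨⟨by decide +kernel, by decide +kernel⟩, rfl, rfl, by norm_num⟩

theorem i11_2 : InitOK p11_2 s11_2 11 := by
  constructor <;> decide +kernel

theorem no11_2 (R : RG.{u} 11 2) : False :=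
  no_RG q11_2 i11_2 (exec_bad q11_2 e11_2) R

theorem q11_3 : PrmOK p11_3 11 3 :=
  ⟨⟨by decide +kernel, by decide +kernel⟩, rfl, rfl, by norm_num⟩

theorem i11_3 : InitOK p11_3 s11_3 11 := by
  constructor <;> decide +kernel

theorem no11_3 (R : RG.{u} 11 3) : False :=
  no_RG q11_3 i11_3 (exec_bad q11_3 e11_3) R

theorem q10_2 : PrmOK p10_2 10 2 :=
  ⟨⟨by decide +kernel, by decide +kernel⟩, rfl, rfl, by norm_num⟩

theorem i10_2 : InitOK p10_2 s10_2 10 := by
  constructor <;> decide +kernel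

theorem no10_2 (R : RG.{u} 10 2) : False :=
  no_RG q10_2 i10_2 (exec_bad q10_2 e10_2) R

theorem q10_3 : PrmOK p10_3 10 3 :=
  ⟨⟨by decide +kernel, by decide +kernel⟩, rfl, rfl, by norm_num⟩

theorem i10_3 : InitOK p10_3 s10_3 10 := by
  constructor <;> decide +kernel

theorem no10_3 (R : RG.{u} 10 3) : False :=
  no_RG q10_3 i10_3 (exec_bad q10_3 e10_3) R

end H39.CN
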