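import Pool.Agent.H39.CN.Init
import Pool.Agent.H39.CN.Cert.C3

namespace H39.CN

universe u

theorem q9_2 : PrmOK p9_2 9 2 :=
  ⟨⟨by decide +kernel, by decide +kernel⟩, rfl, rfl, by norm_num⟩

theorem i9_2 : InitOK p9_2 s9_2 9 := by
  constructor <;> decide +kernel

theorem no9_2 (R : RG.{u} 9 2) : False :=
  no_RG q9_2 i9_2 (exec_bad q9_2 e9_2) R

theorem q9_3 : PrmOK p9_3 9 3 :=
  ⟨⟨by decide +kernel, by decide +kernel⟩, rfl, rfl, by norm_num⟩

theorem i9_3 : InitOK p9_3 s9_3 9 := by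
  constructor <;> decide +kernel

theorem no9_3 (R : RG.{u} 9 3) : False :=
  no_RG q9_3 i9_3 (exec_bad q9_3 e9_3) R

theorem q8_2 : PrmOK p8_2 8 2 :=
  ⟨⟨by decide +kernel, by decide +kernel⟩, rfl, rfl, by norm_num⟩

theorem i8_2 : InitOK p8_2 s8_2 8 := by
  constructor <;> decide +kernel

theorem no8_2 (R : RG.{u} 8 2) : False :=
  no_RG q8_2 i8_2 (exec_bad q8_2 e8_2) R

theorem q8_3 : PrmOK p8_3 8 3 :=
  ⟨⟨by decide +kernel, by decide +kernel⟩, rfl, rfl, by norm_num⟩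

theorem i8_3 : InitOK p8_3 s8_3 8 := by
  constructor <;> decide +kernel

theorem no8_3 (R : RG.{u} 8 3) : False :=
  no_RG q8_3 i8_3 (exec_bad q8_3 e8_3) R

end H39.CN
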