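import Pool.Agent.H39.CN.Init
import Pool.Agent.H39.CN.Cert.C36

namespace H39.CN

universe u

theorem q4_3 : PrmOK p4_3 4 3 :=
  ⟨⟨by decide +kernel, by decide +kernel⟩, rfl, rfl, by norm_num⟩

theorem i4_3 : InitOK p4_3 s4_3 4 := by
  constructor <;> decide +kernel

theorem no4_3 (R : RG.{u} 4 3) : False :=
  no_RG q4_3 i4_3 (exec_bad q4_3 e4_3) R

theorem q4_4 : PrmOK p4_4 4 4 :=
  ⟨⟨by decide +kernel, by decide +kernel⟩, rfl, rfl, by norm_num⟩

theorem i4_4 : InitOK p4_4 s4_4 4 := by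
  constructor <;> decide +kernel

theorem no4_4 (R : RG.{u} 4 4) : False :=
  no_RG q4_4 i4_4 (exec_bad q4_4 e4_4) R

end H39.CN
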