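import Pool.Agent.H39.CN.Init
import Pool.Agent.H39.CN.Cert.C4

namespace H39.CN

universe u

theorem q7_2 : PrmOK p7_2 7 2 :=
  ⟨⟨by decide +kernel, by decide +kernel⟩, rfl, rfl, by norm_num⟩

theorem i7_2 : InitOK p7_2 s7_2 7 := by
  constructor <;> decide +kernel

theorem no7_2 (R : RG.{u} 7 2) : False :=
  no_RG q7_2 i7_2 (exec_bad q7_2 e7_2) R

theorem q7_3 : PrmOK p7_3 7 3 :=
  ⟨⟨by decide +kernel, by decide +kernel⟩, rfl, rfl, by norm_num⟩

theorem i7_3 : InitOK p7_3 s7_3 7 := by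
  constructor <;> decide +kernel

theorem no7_3 (R : RG.{u} 7 3) : False :=
  no_RG q7_3 i7_3 (exec_bad q7_3 e7_3) R

end H39.CN
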