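import Pool.Agent.H39.CN.Init
import Pool.Agent.H39.CN.Cert.C5

namespace H39.CN

universe u

theorem q6_2 : PrmOK p6_2 6 2 :=
  ⟨⟨by decide +kernel, by decide +kernel⟩, rfl, rfl, by norm_num⟩

theorem i6_2 : InitOK p6_2 s6_2 6 := by
  constructor <;> decide +kernel

theorem no6_2 (R : RG.{u} 6 2) : False :=
  no_RG q6_2 i6_2 (exec_bad q6_2 e6_2) R

end H39.CN
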