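import Pool.Agent.H39.CN.Init
import Pool.Agent.H39.CN.Cert.C7

namespace H39.CN

universe u

theorem q5_2 : PrmOK p5_2 5 2 :=
  ⟨⟨by decide +kernel, by decide +kernel⟩, rfl, rfl, by norm_num⟩

theorem i5_2 : InitOK p5_2 s5_2 5 := by
  constructor <;> decide +kernel

theorem no5_2 (R : RG.{u} 5 2) : False :=
  no_RG q5_2 i5_2 (exec_bad q5_2 e5_2) R

end H39.CN
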