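import Pool.Agent.H39.CN.Init
import Pool.Agent.H39.CN.Cert.C8

namespace H39.CN

universe u

theorem q5_3 : PrmOK p5_3 5 3 :=
  ⟨⟨by decide +kernel, by decide +kernel⟩, rfl, rfl, by norm_num⟩

theorem i5_3 : InitOK p5_3 s5_3 5 := by
  constructor <;> decide +kernel

theorem no5_3 (R : RG.{u} 5 3) : False :=
  no_RG q5_3 i5_3 (exec_bad q5_3 e5_3) R

theorem q5_4 : PrmOK p5_4 5 4 :=
  ⟨⟨by decide +kernel, by decide +kernel⟩, rfl, rfl, by norm_num⟩

theorem i5_4 : InitOK p5_4 s5_4 5 := by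
  constructor <;> decide +kernel

theorem no5_4 (R : RG.{u} 5 4) : False :=
  no_RG q5_4 i5_4 (exec_bad q5_4 e5_4) R

end H39.CN
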