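import Pool.Agent.H39.CN.Init
import Pool.Agent.H39.CN.Cert.C0

namespace H39.CN

universe u

theorem q42_2 : PrmOK p42_2 42 2 :=
  ⟨⟨by decide +kernel, by decide +kernel⟩, rfl, rfl, by norm_num⟩

theorem i42_2 : InitOK p42_2 s42_2 42 := by
  constructor <;> decide +kernel

theorem no42_2 (R : RG.{u} 42 2) : False :=
  no_RG q42_2 i42_2 (exec_bad q42_2 e42_2) R

theorem q42_3 : PrmOK p42_3 42 3 :=
  ⟨⟨by decide +kernel, by decide +kernel⟩, rfl, rfl, by norm_num⟩

theorem i42_3 : InitOK p42_3 s42_3 42 := by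
  constructor <;> decide +kernel

theorem no42_3 (R : RG.{u} 42 3) : False :=
  no_RG q42_3 i42_3 (exec_bad q42_3 e42_3) R

theorem q41_2 : PrmOK p41_2 41 2 :=
  ⟨⟨by decide +kernel, by decide +kernel⟩, rfl, rfl, by norm_num⟩

theorem i41_2 : InitOK p41_2 s41_2 41 := by
  constructor <;> decide +kernel

theorem no41_2 (R : RG.{u} 41 2) : False :=
  no_RG q41_2 i41_2 (exec_bad q41_2 e41_2) R

theorem q41_3 : PrmOK p41_3 41 3 :=
  ⟨⟨by decide +kernel, by decide +kernel⟩, rfl, rfl, by norm_num⟩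

theorem i41_3 : InitOK p41_3 s41_3 41 := by
  constructor <;> decide +kernel

theorem no41_3 (R : RG.{u} 41 3) : False :=
  no_RG q41_3 i41_3 (exec_bad q41_3 e41_3) R

theorem q40_2 : PrmOK p40_2 40 2 :=
  ⟨⟨by decide +kernel, by decide +kernel⟩, rfl, rfl, by norm_num⟩

theorem i40_2 : InitOK p40_2 s40_2 40 := by
  constructor <;> decide +kernel

theorem no40_2 (R : RG.{u} 40 2) : False :=
  no_RG q40_2 i40_2 (exec_bad q40_2 e40_2) R

theorem q40_3 : PrmOK p40_3 40 3 :=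
  ⟨⟨by decide +kernel, by decide +kernel⟩, rfl, rfl, by norm_num⟩

theorem i40_3 : InitOK p40_3 s40_3 40 := by
  constructor <;> decide +kernel

theorem no40_3 (R : RG.{u} 40 3) : False :=
  no_RG q40_3 i40_3 (exec_bad q40_3 e40_3) R

theorem q39_2 : PrmOK p39_2 39 2 :=
  ⟨⟨by decide +kernel, by decide +kernel⟩, rfl, rfl, by norm_num⟩

theorem i39_2 : InitOK p39_2 s39_2 39 := by
  constructor <;> decide +kernel

theorem no39_2 (R : RG.{u} 39 2) : False :=
  no_RG q39_2 i39_2 (exec_bad q39_2 e39_2) R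

theorem q39_3 : PrmOK p39_3 39 3 :=
  ⟨⟨by decide +kernel, by decide +kernel⟩, rfl, rfl, by norm_num⟩

theorem i39_3 : InitOK p39_3 s39_3 39 := by
  constructor <;> decide +kernel

theorem no39_3 (R : RG.{u} 39 3) : False :=
  no_RG q39_3 i39_3 (exec_bad q39_3 e39_3) R

theorem q38_2 : PrmOK p38_2 38 2 :=
  ⟨⟨by decide +kernel, by decide +kernel⟩, rfl, rfl, by norm_num⟩

theorem i38_2 : InitOK p38_2 s38_2 38 := by
  constructor <;> decide +kernel

theorem no38_2 (R : RG.{u} 38 2) : False :=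
  no_RG q38_2 i38_2 (exec_bad q38_2 e38_2) R

theorem q38_3 : PrmOK p38_3 38 3 :=
  ⟨⟨by decide +kernel, by decide +kernel⟩, rfl, rfl, by norm_num⟩

theorem i38_3 : InitOK p38_3 s38_3 38 := by
  constructor <;> decide +kernel

theorem no38_3 (R : RG.{u} 38 3) : False :=
  no_RG q38_3 i38_3 (exec_bad q38_3 e38_3) R

theorem q37_2 : PrmOK p37_2 37 2 :=
  ⟨⟨by decide +kernel, by decide +kernel⟩, rfl, rfl, by norm_num⟩

theorem i37_2 : InitOK p37_2 s37_2 37 := by
  constructor <;> decide +kernel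

theorem no37_2 (R : RG.{u} 37 2) : False :=
  no_RG q37_2 i37_2 (exec_bad q37_2 e37_2) R

theorem q37_3 : PrmOK p37_3 37 3 :=
  ⟨⟨by decide +kernel, by decide +kernel⟩, rfl, rfl, by norm_num⟩

theorem i37_3 : InitOK p37_3 s37_3 37 := by
  constructor <;> decide +kernel

theorem no37_3 (R : RG.{u} 37 3) : False :=
  no_RG q37_3 i37_3 (exec_bad q37_3 e37_3) R

theorem q36_2 : PrmOK p36_2 36 2 :=
  ⟨⟨by decide +kernel, by decide +kernel⟩, rfl, rfl, by norm_num⟩

theorem i36_2 : InitOK p36_2 s36_2 36 := by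
  constructor <;> decide +kernel

theorem no36_2 (R : RG.{u} 36 2) : False :=
  no_RG q36_2 i36_2 (exec_bad q36_2 e36_2) R

theorem q36_3 : PrmOK p36_3 36 3 :=
  ⟨⟨by decide +kernel, by decide +kernel⟩, rfl, rfl, by norm_num⟩

theorem i36_3 : InitOK p36_3 s36_3 36 := by
  constructor <;> decide +kernel

theorem no36_3 (R : RG.{u} 36 3) : False :=
  no_RG q36_3 i36_3 (exec_bad q36_3 e36_3) R

theorem q35_2 : PrmOK p35_2 35 2 :=
  ⟨⟨by decide +kernel, by decide +kernel⟩, rfl, rfl, by norm_num⟩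

theorem i35_2 : InitOK p35_2 s35_2 35 := by
  constructor <;> decide +kernel

theorem no35_2 (R : RG.{u} 35 2) : False :=
  no_RG q35_2 i35_2 (exec_bad q35_2 e35_2) R

theorem q35_3 : PrmOK p35_3 35 3 :=
  ⟨⟨by decide +kernel, by decide +kernel⟩, rfl, rfl, by norm_num⟩

theorem i35_3 : InitOK p35_3 s35_3 35 := by
  constructor <;> decide +kernel

theorem no35_3 (R : RG.{u} 35 3) : False :=
  no_RG q35_3 i35_3 (exec_bad q35_3 e35_3) R

theorem q34_2 : PrmOK p34_2 34 2 :=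
  ⟨⟨by decide +kernel, by decide +kernel⟩, rfl, rfl, by norm_num⟩

theorem i34_2 : InitOK p34_2 s34_2 34 := by
  constructor <;> decide +kernel

theorem no34_2 (R : RG.{u} 34 2) : False :=
  no_RG q34_2 i34_2 (exec_bad q34_2 e34_2) R

theorem q34_3 : PrmOK p34_3 34 3 :=
  ⟨⟨by decide +kernel, by decide +kernel⟩, rfl, rfl, by norm_num⟩

theorem i34_3 : InitOK p34_3 s34_3 34 := by
  constructor <;> decide +kernel

theorem no34_3 (R : RG.{u} 34 3) : False :=
  no_RG q34_3 i34_3 (exec_bad q34_3 e34_3) R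

theorem q33_2 : PrmOK p33_2 33 2 :=
  ⟨⟨by decide +kernel, by decide +kernel⟩, rfl, rfl, by norm_num⟩

theorem i33_2 : InitOK p33_2 s33_2 33 := by
  constructor <;> decide +kernel

theorem no33_2 (R : RG.{u} 33 2) : False :=
  no_RG q33_2 i33_2 (exec_bad q33_2 e33_2) R

theorem q33_3 : PrmOK p33_3 33 3 :=
  ⟨⟨by decide +kernel, by decide +kernel⟩, rfl, rfl, by norm_num⟩

theorem i33_3 : InitOK p33_3 s33_3 33 := by
  constructor <;> decide +kernel

theorem no33_3 (R : RG.{u} 33 3) : False :=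
  no_RG q33_3 i33_3 (exec_bad q33_3 e33_3) R

theorem q32_2 : PrmOK p32_2 32 2 :=
  ⟨⟨by decide +kernel, by decide +kernel⟩, rfl, rfl, by norm_num⟩

theorem i32_2 : InitOK p32_2 s32_2 32 := by
  constructor <;> decide +kernel

theorem no32_2 (R : RG.{u} 32 2) : False :=
  no_RG q32_2 i32_2 (exec_bad q32_2 e32_2) R

theorem q32_3 : PrmOK p32_3 32 3 :=
  ⟨⟨by decide +kernel, by decide +kernel⟩, rfl, rfl, by norm_num⟩

theorem i32_3 : InitOK p32_3 s32_3 32 := by
  constructor <;> decide +kernel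

theorem no32_3 (R : RG.{u} 32 3) : False :=
  no_RG q32_3 i32_3 (exec_bad q32_3 e32_3) R

theorem q31_2 : PrmOK p31_2 31 2 :=
  ⟨⟨by decide +kernel, by decide +kernel⟩, rfl, rfl, by norm_num⟩

theorem i31_2 : InitOK p31_2 s31_2 31 := by
  constructor <;> decide +kernel

theorem no31_2 (R : RG.{u} 31 2) : False :=
  no_RG q31_2 i31_2 (exec_bad q31_2 e31_2) R

theorem q31_3 : PrmOK p31_3 31 3 :=
  ⟨⟨by decide +kernel, by decide +kernel⟩, rfl, rfl, by norm_num⟩

theorem i31_3 : InitOK p31_3 s31_3 31 := by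
  constructor <;> decide +kernel

theorem no31_3 (R : RG.{u} 31 3) : False :=
  no_RG q31_3 i31_3 (exec_bad q31_3 e31_3) R

theorem q30_2 : PrmOK p30_2 30 2 :=
  ⟨⟨by decide +kernel, by decide +kernel⟩, rfl, rfl, by norm_num⟩

theorem i30_2 : InitOK p30_2 s30_2 30 := by
  constructor <;> decide +kernel

theorem no30_2 (R : RG.{u} 30 2) : False :=
  no_RG q30_2 i30_2 (exec_bad q30_2 e30_2) R

theorem q30_3 : PrmOK p30_3 30 3 :=
  ⟨⟨by decide +kernel, by decide +kernel⟩, rfl, rfl, by norm_num⟩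

theorem i30_3 : InitOK p30_3 s30_3 30 := by
  constructor <;> decide +kernel

theorem no30_3 (R : RG.{u} 30 3) : False :=
  no_RG q30_3 i30_3 (exec_bad q30_3 e30_3) R

theorem q29_2 : PrmOK p29_2 29 2 :=
  ⟨⟨by decide +kernel, by decide +kernel⟩, rfl, rfl, by norm_num⟩

theorem i29_2 : InitOK p29_2 s29_2 29 := by
  constructor <;> decide +kernel

theorem no29_2 (R : RG.{u} 29 2) : False :=
  no_RG q29_2 i29_2 (exec_bad q29_2 e29_2) R

theorem q29_3 : PrmOK p29_3 29 3 :=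
  ⟨⟨by decide +kernel, by decide +kernel⟩, rfl, rfl, by norm_num⟩

theorem i29_3 : InitOK p29_3 s29_3 29 := by
  constructor <;> decide +kernel

theorem no29_3 (R : RG.{u} 29 3) : False :=
  no_RG q29_3 i29_3 (exec_bad q29_3 e29_3) R

theorem q28_2 : PrmOK p28_2 28 2 :=
  ⟨⟨by decide +kernel, by decide +kernel⟩, rfl, rfl, by norm_num⟩

theorem i28_2 : InitOK p28_2 s28_2 28 := by
  constructor <;> decide +kernel

theorem no28_2 (R : RG.{u} 28 2) : False :=
  no_RG q28_2 i28_2 (exec_bad q28_2 e28_2) R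

theorem q28_3 : PrmOK p28_3 28 3 :=
  ⟨⟨by decide +kernel, by decide +kernel⟩, rfl, rfl, by norm_num⟩

theorem i28_3 : InitOK p28_3 s28_3 28 := by
  constructor <;> decide +kernel

theorem no28_3 (R : RG.{u} 28 3) : False :=
  no_RG q28_3 i28_3 (exec_bad q28_3 e28_3) R

theorem q27_2 : PrmOK p27_2 27 2 :=
  ⟨⟨by decide +kernel, by decide +kernel⟩, rfl, rfl, by norm_num⟩

theorem i27_2 : InitOK p27_2 s27_2 27 := by
  constructor <;> decide +kernel

theorem no27_2 (R : RG.{u} 27 2) : False :=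
  no_RG q27_2 i27_2 (exec_bad q27_2 e27_2) R

theorem q27_3 : PrmOK p27_3 27 3 :=
  ⟨⟨by decide +kernel, by decide +kernel⟩, rfl, rfl, by norm_num⟩

theorem i27_3 : InitOK p27_3 s27_3 27 := by
  constructor <;> decide +kernel

theorem no27_3 (R : RG.{u} 27 3) : False :=
  no_RG q27_3 i27_3 (exec_bad q27_3 e27_3) R

end H39.CN
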